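import Pool.Agent.H694.TR.Pot

/-!
Groups acting on trees with abelian stabilizers: characters of the stabilizers extend to the subgroup
generated by all stabilizers.
-/

set_option autoImplicit false

namespace Pool.Agent.H694.TR

open Pool.Agent.H40R2.Zd

/-- The group `ℚ / ℤ`. -/
abbrev QZ : Type := AddCircle (1 : ℚ)

/-- The function is additive on the subset. -/
def AddOn {N : Type} [Group N] (B : Subgroup N) (θ : N → QZ) : Prop :=
  ∀ x ∈ B, ∀ y ∈ B, θ (x * y) = θ x + θ y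

section Ext

variable {N : Type} [Group N]

theorem ext_char (A B : Subgroup N) (hB : ∀ x ∈ B, ∀ y ∈ B, x * y = y * x) (hAB : A ≤ B)
    (χ : N → QZ) (hχ : AddOn A χ) : ∃ θ : N → QZ, AddOn B θ ∧ ∀ x ∈ A, θ x = χ x := by
  classical
  let iB : CommGroup B := { (inferInstance : Group B) with
    mul_comm := fun x y => Subtype.ext (hB x x.2 y y.2) }
  let iA : CommGroup A := { (inferInstance : Group A) with
    mul_comm := fun x y => Subtype.ext (hB x (hAB x.2) y (hAB y.2)) }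
  let f : Additive A →ₗ[ℤ] Additive B := (MonoidHom.toAdditive (Subgroup.inclusion hAB)).toIntLinearMap
  have hf : Function.Injective f := Subgroup.inclusion_injective hAB
  let c : CharacterModule (Additive A) := AddMonoidHom.mk' (fun x => χ ((Additive.toMul x : A) : N))
    (fun x y => hχ _ (Additive.toMul x).2 _ (Additive.toMul y).2)
  obtain ⟨d, hd⟩ := CharacterModule.dual_surjective_of_injective f hf c
  refine ⟨fun x => if h : x ∈ B then d (Additive.ofMul (⟨x, h⟩ : B)) else 0, ?_, ?_⟩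
  · intro x hx y hy
    have hxy : x * y ∈ B := B.mul_mem hx hy
    simp only [dif_pos hx, dif_pos hy, dif_pos hxy]
    exact map_add d (Additive.ofMul (⟨x, hx⟩ : B)) (Additive.ofMul (⟨y, hy⟩ : B))
  · intro x hx
    simp only [dif_pos (hAB hx)]
    exact DFunLike.congr_fun hd (Additive.ofMul (⟨x, hx⟩ : A))

theorem ex_char (B : Subgroup N) (hB : ∀ x ∈ B, ∀ y ∈ B, x * y = y * x) (z : N) (hz : z ∈ B)
    (hz1 : z ≠ 1) : ∃ θ : N → QZ, AddOn B θ ∧ θ z ≠ 0 := by
  classical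
  let iB : CommGroup B := { (inferInstance : Group B) with
    mul_comm := fun x y => Subtype.ext (hB x x.2 y y.2) }
  obtain ⟨d, hd⟩ := CharacterModule.exists_character_apply_ne_zero_of_ne_zero
    (a := Additive.ofMul (⟨z, hz⟩ : B)) (fun h => hz1 (congrArg Subtype.val
      (Additive.ofMul.injective h : (⟨z, hz⟩ : B) = 1)))
  refine ⟨fun x => if h : x ∈ B then d (Additive.ofMul (⟨x, h⟩ : B)) else 0, ?_, ?_⟩
  · intro x hx y hy
    have hxy : x * y ∈ B := B.mul_mem hx hy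
    simp only [dif_pos hx, dif_pos hy, dif_pos hxy]
    exact map_add d (Additive.ofMul (⟨x, hx⟩ : B)) (Additive.ofMul (⟨y, hy⟩ : B))
  · simp only [dif_pos hz]
    exact hd

theorem AddOn.inv {B : Subgroup N} {θ : N → QZ} (h : AddOn B θ) {x : N} (hx : x ∈ B) :
    θ x⁻¹ = - θ x := by
  have h1 : θ 1 = 0 := by
    have := h 1 B.one_mem 1 B.one_mem
    rw [mul_one] at this
    exact left_eq_add.mp this
  have h2 := h x⁻¹ (B.inv_mem hx) x hx
  rw [inv_mul_cancel, h1] at h2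
  exact eq_neg_of_add_eq_zero_left h2.symm

/-- A function additive on an abelian subgroup is invariant under conjugation with its elements. -/
theorem AddOn.conj {B : Subgroup N} {θ : N → QZ} (hB : ∀ x ∈ B, ∀ y ∈ B, x * y = y * x)
    {s x : N} (hs : s ∈ B) (hx : x ∈ B) : θ (s * x * s⁻¹) = θ x := by
  rw [hB s hs x hx, mul_inv_cancel_right]

end Ext

section Orb

variable {N V : Type} [Group N] [MulAction N V]

theorem mem_stab_conj {w : V} {γ x : N} (hx : x ∈ MulAction.stabilizer N w) :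
    γ * x * γ⁻¹ ∈ MulAction.stabilizer N (γ • w) := by
  rw [MulAction.mem_stabilizer_iff, mul_smul, mul_smul, inv_smul_smul]
  congr 1

/-- Representatives of the orbits. -/
theorem ex_rep (S : Subgroup N) : ∃ (rep : V → V) (g : V → N),
    (∀ w, g w ∈ S ∧ g w • rep w = w) ∧ ∀ γ ∈ S, ∀ w, rep (γ • w) = rep w := by
  classical
  let q : V → MulAction.orbitRel.Quotient S V := fun w => Quotient.mk'' w
  let rep : V → V := fun w => (q w).out
  have hrep : ∀ w, ∃ γ, γ ∈ S ∧ γ • rep w = w := by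
    intro w
    have h1 : q (rep w) = q w := Quotient.out_eq' (q w)
    have h2 : MulAction.orbitRel S V (rep w) w := Quotient.exact' h1
    rw [MulAction.orbitRel_apply] at h2
    obtain ⟨⟨γ, hγ⟩, h3⟩ := h2
    refine ⟨γ⁻¹, S.inv_mem hγ, ?_⟩
    rw [inv_smul_eq_iff]
    exact h3.symm
  choose g hg using hrep
  refine ⟨rep, g, hg, ?_⟩
  intro γ hγ w
  have h1 : q (γ • w) = q w := Quotient.sound' (by
    change MulAction.orbitRel S V (γ • w) w
    rw [MulAction.orbitRel_apply]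
    exact ⟨⟨γ, hγ⟩, rfl⟩)
  exact congrArg Quotient.out h1

theorem orb (S : Subgroup N)
    (hab : ∀ (w : V), ∀ x ∈ MulAction.stabilizer N w, ∀ y ∈ MulAction.stabilizer N w,
      x * y = y * x)
    (D : Set V) (hD : ∀ γ ∈ S, ∀ w ∈ D, γ • w ∈ D) (θ : V → N → QZ)
    (hθ : ∀ w ∈ D, AddOn (MulAction.stabilizer N w) (θ w)) :
    ∃ (χ : V → N → QZ) (rep : V → V), (∀ w, ∃ γ ∈ S, γ • rep w = w) ∧
      (∀ w ∈ D, AddOn (MulAction.stabilizer N w) (χ w)) ∧
      (∀ γ ∈ S, ∀ w ∈ D, ∀ x ∈ MulAction.stabilizer N w, χ (γ • w) (γ * x * γ⁻¹) = χ w x) ∧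
      ∀ w ∈ D, ∀ x ∈ MulAction.stabilizer N (rep w), χ (rep w) x = θ (rep w) x := by
  obtain ⟨rep, g, hg, hinv⟩ := ex_rep (V := V) S
  have hg1 := fun w => (hg w).1
  have hg2 := fun w => (hg w).2
  have hrD : ∀ w ∈ D, rep w ∈ D := by
    intro w hw
    have h1 : rep w = (g w)⁻¹ • w := by rw [eq_inv_smul_iff]; exact hg2 w
    rw [h1]
    exact hD _ (S.inv_mem (hg1 w)) w hw
  have hst : ∀ w, ∀ x ∈ MulAction.stabilizer N w, (g w)⁻¹ * x * g w ∈
      MulAction.stabilizer N (rep w) := by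
    intro w x hx
    have h1 := mem_stab_conj (γ := (g w)⁻¹) hx
    rw [inv_inv] at h1
    have h2 : (g w)⁻¹ • w = rep w := by rw [inv_smul_eq_iff]; exact (hg2 w).symm
    rwa [h2] at h1
  refine ⟨fun w x => θ (rep w) ((g w)⁻¹ * x * g w), rep, fun w => ⟨g w, hg1 w, hg2 w⟩,
    ?_, ?_, ?_⟩
  · intro w hw x hx y hy
    change θ (rep w) ((g w)⁻¹ * (x * y) * g w) =
      θ (rep w) ((g w)⁻¹ * x * g w) + θ (rep w) ((g w)⁻¹ * y * g w)
    rw [← hθ (rep w) (hrD w hw) _ (hst w x hx) _ (hst w y hy)]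
    congr 1
    group
  · intro γ hγ w hw x hx
    change θ (rep (γ • w)) ((g (γ • w))⁻¹ * (γ * x * γ⁻¹) * g (γ • w)) =
      θ (rep w) ((g w)⁻¹ * x * g w)
    rw [hinv γ hγ w]
    obtain ⟨s, hs⟩ : ∃ s, s = (g (γ • w))⁻¹ * γ * g w := ⟨_, rfl⟩
    have h1 : s ∈ MulAction.stabilizer N (rep w) := by
      rw [MulAction.mem_stabilizer_iff, hs, mul_smul, mul_smul, hg2 w, inv_smul_eq_iff]
      have := hg2 (γ • w)
      rw [hinv γ hγ w] at this
      exact this.symm
    have h2 : (g (γ • w))⁻¹ * (γ * x * γ⁻¹) * g (γ • w) = s * ((g w)⁻¹ * x * g w) * s⁻¹ := by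
      rw [hs]
      group
    rw [h2]
    exact AddOn.conj (hab (rep w)) h1 (hst w x hx)
  · intro w hw x hx
    have hrr : rep (rep w) = rep w := by
      have h1 : rep w = (g w)⁻¹ • w := by rw [eq_inv_smul_iff]; exact hg2 w
      have h2 := hinv _ (S.inv_mem (hg1 w)) w
      rw [← h1] at h2
      exact h2
    change θ (rep (rep w)) ((g (rep w))⁻¹ * x * g (rep w)) = θ (rep w) x
    rw [hrr]
    have h1 : (g (rep w))⁻¹ ∈ MulAction.stabilizer N (rep w) := by
      rw [MulAction.mem_stabilizer_iff, inv_smul_eq_iff]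
      have := hg2 (rep w)
      rw [hrr] at this
      exact this.symm
    have h2 := AddOn.conj (θ := θ (rep w)) (hab (rep w)) h1 hx
    rwa [inv_inv] at h2

end Orb

section Fam

variable {N V : Type} [Group N] [MulAction N V] {T : SimpleGraph V}

/-- A compatible family of characters on the vertices of level at most `n`. -/
def Fam (T : SimpleGraph V) (v₀ : V) (n : ℕ) (χ : V → N → QZ) : Prop :=
  (∀ w, lev T N v₀ w ≤ n → AddOn (MulAction.stabilizer N w) (χ w)) ∧
  (∀ γ ∈ Ell N V, ∀ w, lev T N v₀ w ≤ n → ∀ x ∈ MulAction.stabilizer N w,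
    χ (γ • w) (γ * x * γ⁻¹) = χ w x) ∧
  ∀ a b, T.Adj a b → lev T N v₀ a ≤ n → lev T N v₀ b ≤ n → ∀ x ∈ MulAction.stabilizer N a,
    x ∈ MulAction.stabilizer N b → χ a x = χ b x

theorem fam_zero (hA : TreeAct N V T)
    (hab : ∀ (w : V), ∀ x ∈ MulAction.stabilizer N w, ∀ y ∈ MulAction.stabilizer N w,
      x * y = y * x) (v₀ : V) (z : N) (hz : z ∈ MulAction.stabilizer N v₀) (hz1 : z ≠ 1) :
    ∃ χ : V → N → QZ, Fam T v₀ 0 χ ∧ χ v₀ z ≠ 0 := by
  classical
  obtain ⟨θ₀, h1, h2⟩ := ex_char (MulAction.stabilizer N v₀) (hab v₀) z hz hz1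
  have h3 : ∀ w, lev T N v₀ w = 0 → ∃ γ ∈ Ell N V, γ • w = v₀ := lev_zero hA v₀
  let g : V → N := fun w => if h : lev T N v₀ w = 0 then (h3 w h).choose else 1
  have hg : ∀ w, lev T N v₀ w = 0 → g w ∈ Ell N V ∧ g w • w = v₀ := by
    intro w h
    change (if h : lev T N v₀ w = 0 then (h3 w h).choose else 1) ∈ _ ∧
      (if h : lev T N v₀ w = 0 then (h3 w h).choose else 1) • w = v₀
    rw [dif_pos h]
    exact (h3 w h).choose_spec
  let D : Set V := {w | lev T N v₀ w = 0}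
  let θ : V → N → QZ := fun w x => θ₀ (g w * x * (g w)⁻¹)
  have hst : ∀ w ∈ D, ∀ x ∈ MulAction.stabilizer N w, g w * x * (g w)⁻¹ ∈
      MulAction.stabilizer N v₀ := by
    intro w hw x hx
    have := mem_stab_conj (γ := g w) hx
    rwa [(hg w hw).2] at this
  obtain ⟨χ, rep, hrep, c1, c2, c3⟩ := orb (Ell N V) hab D
    (fun γ hγ w hw => by
      change lev T N v₀ (γ • w) = 0
      rw [lev_smul hA v₀ w γ hγ]
      exact hw) θ (by
      intro w hw x hx y hy
      change θ₀ (g w * (x * y) * (g w)⁻¹) = θ₀ (g w * x * (g w)⁻¹) + θ₀ (g w * y * (g w)⁻¹)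
      rw [← h1 _ (hst w hw x hx) _ (hst w hw y hy)]
      congr 1
      group)
  have hv : v₀ ∈ D := lev_self hA v₀
  refine ⟨χ, ⟨fun w hw => c1 w (Nat.le_zero.mp hw), fun γ hγ w hw => c2 γ hγ w (Nat.le_zero.mp hw),
    fun a b hab' ha hb => ?_⟩, ?_⟩
  · exfalso
    rcases dich hA v₀ hab'.symm with h | h
    · have := h.1
      omega
    · omega
  · obtain ⟨δ, hδ, h4⟩ := hrep v₀
    have hr : rep v₀ ∈ D := by
      change lev T N v₀ (rep v₀) = 0
      rw [← lev_smul hA v₀ (rep v₀) δ hδ, h4]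
      exact hv
    have h5 : δ⁻¹ * z * δ ∈ MulAction.stabilizer N (rep v₀) := by
      have := mem_stab_conj (γ := δ⁻¹) hz
      rw [inv_inv] at this
      have h6 : δ⁻¹ • v₀ = rep v₀ := by rw [inv_smul_eq_iff]; exact h4.symm
      rwa [h6] at this
    have h6 : χ v₀ z = χ (rep v₀) (δ⁻¹ * z * δ) := by
      have h7 := c2 δ hδ (rep v₀) hr _ h5
      rw [h4] at h7
      rw [← h7]
      congr 1
      group
    rw [h6, c3 v₀ hv _ h5]
    change θ₀ (g (rep v₀) * (δ⁻¹ * z * δ) * (g (rep v₀))⁻¹) ≠ 0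
    have h8 : g (rep v₀) * δ⁻¹ ∈ MulAction.stabilizer N v₀ := by
      rw [MulAction.mem_stabilizer_iff, mul_smul]
      have h6 : δ⁻¹ • v₀ = rep v₀ := by rw [inv_smul_eq_iff]; exact h4.symm
      rw [h6]
      exact (hg (rep v₀) hr).2
    have h9 : g (rep v₀) * (δ⁻¹ * z * δ) * (g (rep v₀))⁻¹ =
        (g (rep v₀) * δ⁻¹) * z * (g (rep v₀) * δ⁻¹)⁻¹ := by group
    rw [h9, AddOn.conj (θ := θ₀) (hab v₀) h8 hz]
    exact h2

theorem fam_succ (hA : TreeAct N V T)
    (hab : ∀ (w : V), ∀ x ∈ MulAction.stabilizer N w, ∀ y ∈ MulAction.stabilizer N w,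
      x * y = y * x) (v₀ : V) (n : ℕ) (χ : V → N → QZ) (hχ : Fam T v₀ n χ) :
    ∃ χ' : V → N → QZ, Fam T v₀ (n + 1) χ' ∧ ∀ w, lev T N v₀ w ≤ n → χ' w = χ w := by
  classical
  have hpar : ∀ b, lev T N v₀ b = n + 1 → ∃ a, T.Adj b a ∧ lev T N v₀ a = n :=
    fun b hb => ex_parent hA v₀ b n hb
  let par : V → V := fun b => if h : lev T N v₀ b = n + 1 then (hpar b h).choose else b
  have hp : ∀ b, lev T N v₀ b = n + 1 → T.Adj b (par b) ∧ lev T N v₀ (par b) = n := by
    intro b h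
    change T.Adj b (if h : lev T N v₀ b = n + 1 then (hpar b h).choose else b) ∧
      lev T N v₀ (if h : lev T N v₀ b = n + 1 then (hpar b h).choose else b) = n
    rw [dif_pos h]
    exact (hpar b h).choose_spec
  have hθ : ∀ b, ∃ θ : N → QZ, lev T N v₀ b = n + 1 → (AddOn (MulAction.stabilizer N b) θ ∧
      ∀ x ∈ MulAction.stabilizer N b, x ∈ MulAction.stabilizer N (par b) → θ x = χ (par b) x) := by
    intro b
    by_cases hb : lev T N v₀ b = n + 1
    · obtain ⟨θ, h1, h2⟩ := ext_char (MulAction.stabilizer N b ⊓ MulAction.stabilizer N (par b))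
        (MulAction.stabilizer N b) (hab b) inf_le_left (χ (par b))
        (fun x hx y hy => hχ.1 (par b) (hp b hb).2.le x hx.2 y hy.2)
      exact ⟨θ, fun _ => ⟨h1, fun x hx hx' => h2 x ⟨hx, hx'⟩⟩⟩
    · exact ⟨0, fun h => absurd h hb⟩
  choose θ hθ using hθ
  let D : Set V := {w | lev T N v₀ w = n + 1}
  obtain ⟨χ₁, rep, hrep, c1, c2, c3⟩ := orb (Ell N V) hab D
    (fun γ hγ w hw => by
      change lev T N v₀ (γ • w) = n + 1
      rw [lev_smul hA v₀ w γ hγ]
      exact hw) θ (fun w hw => (hθ w hw).1)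
  have key : ∀ a b, T.Adj b a → lev T N v₀ b = n + 1 → lev T N v₀ a = n →
      ∀ x ∈ MulAction.stabilizer N a, x ∈ MulAction.stabilizer N b → χ a x = χ₁ b x := by
    intro a b hadj hb ha x hxa hxb
    obtain ⟨γ, hγ, h1⟩ := hrep b
    have hr : lev T N v₀ (rep b) = n + 1 := by
      rw [← lev_smul hA v₀ (rep b) γ hγ, h1, hb]
    obtain ⟨δ, hδ, h2, h3⟩ := edge_unique hA v₀ (hp _ hr).1 hadj (by rw [hr, (hp _ hr).2])
      (by rw [hb, ha]) γ hγ h1
    have e1 : δ⁻¹ • b = rep b := by rw [inv_smul_eq_iff]; exact h2.symm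
    have e2 : δ⁻¹ • a = par (rep b) := by rw [inv_smul_eq_iff]; exact h3.symm
    have s1 : δ⁻¹ * x * δ ∈ MulAction.stabilizer N (rep b) := by
      have := mem_stab_conj (γ := δ⁻¹) hxb
      rwa [inv_inv, e1] at this
    have s2 : δ⁻¹ * x * δ ∈ MulAction.stabilizer N (par (rep b)) := by
      have := mem_stab_conj (γ := δ⁻¹) hxa
      rwa [inv_inv, e2] at this
    have e3 : δ * (δ⁻¹ * x * δ) * δ⁻¹ = x := by group
    have t1 := c2 δ hδ (rep b) hr _ s1
    rw [h2, e3] at t1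
    have t2 := hχ.2.1 δ hδ (par (rep b)) (hp _ hr).2.le _ s2
    rw [h3, e3] at t2
    rw [t1, t2, c3 b hb _ s1, (hθ _ hr).2 _ s1 s2]
  let χ' : V → N → QZ := fun w => if lev T N v₀ w ≤ n then χ w else χ₁ w
  have hlo : ∀ w, lev T N v₀ w ≤ n → χ' w = χ w := fun w h => if_pos h
  have hhi : ∀ w, lev T N v₀ w = n + 1 → χ' w = χ₁ w := fun w h => if_neg (by omega)
  refine ⟨χ', ⟨?_, ?_, ?_⟩, hlo⟩
  · intro w hw
    rcases Nat.lt_or_ge n (lev T N v₀ w) with h | h
    · have h' : lev T N v₀ w = n + 1 := by omega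
      rw [hhi w h']
      exact c1 w h'
    · rw [hlo w h]
      exact hχ.1 w h
  · intro γ hγ w hw x hx
    have hl := lev_smul hA v₀ w γ hγ
    rcases Nat.lt_or_ge n (lev T N v₀ w) with h | h
    · have h' : lev T N v₀ w = n + 1 := by omega
      rw [hhi w h', hhi (γ • w) (by rw [hl, h'])]
      exact c2 γ hγ w h' x hx
    · rw [hlo w h, hlo (γ • w) (by rw [hl]; exact h)]
      exact hχ.2.1 γ hγ w h x hx
  · have half : ∀ a b, T.Adj b a → lev T N v₀ b = lev T N v₀ a + 1 → lev T N v₀ b ≤ n + 1 →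
        ∀ x ∈ MulAction.stabilizer N a, x ∈ MulAction.stabilizer N b → χ' a x = χ' b x := by
      intro a b hadj hba hb x hxa hxb
      rcases Nat.lt_or_ge n (lev T N v₀ b) with h | h
      · have h' : lev T N v₀ b = n + 1 := by omega
        rw [hhi b h', hlo a (by omega)]
        exact key a b hadj h' (by omega) x hxa hxb
      · rw [hlo b h, hlo a (by omega)]
        exact hχ.2.2 a b hadj.symm (by omega) h x hxa hxb
    intro a b hadj ha hb x hxa hxb
    rcases dich hA v₀ hadj with h | h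
    · exact (half b a hadj h.1 ha x hxb hxa).symm
    · exact half a b hadj.symm h hb x hxa hxb

/-- A compatible family of characters on all stabilizers, not zero at a given element. -/
theorem ex_fam (hA : TreeAct N V T)
    (hab : ∀ (w : V), ∀ x ∈ MulAction.stabilizer N w, ∀ y ∈ MulAction.stabilizer N w,
      x * y = y * x) (v₀ : V) (z : N) (hz : z ∈ MulAction.stabilizer N v₀) (hz1 : z ≠ 1) :
    ∃ χ : V → N → QZ, χ v₀ z ≠ 0 ∧ (∀ w, AddOn (MulAction.stabilizer N w) (χ w)) ∧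
      (∀ γ ∈ Ell N V, ∀ w, ∀ x ∈ MulAction.stabilizer N w, χ (γ • w) (γ * x * γ⁻¹) = χ w x) ∧
      ∀ a b, T.Adj a b → ∀ x ∈ MulAction.stabilizer N a, x ∈ MulAction.stabilizer N b →
        χ a x = χ b x := by
  classical
  obtain ⟨χ₀, h0, h0'⟩ := fam_zero hA hab v₀ z hz hz1
  let F : ℕ → Type := fun n => {χ : V → N → QZ // Fam T v₀ n χ}
  let nx : ∀ n, F n → F (n + 1) := fun n χ =>
    ⟨(fam_succ hA hab v₀ n χ.1 χ.2).choose, (fam_succ hA hab v₀ n χ.1 χ.2).choose_spec.1⟩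
  have hnx : ∀ n (χ : F n) w, lev T N v₀ w ≤ n → (nx n χ).1 w = χ.1 w := fun n χ =>
    (fam_succ hA hab v₀ n χ.1 χ.2).choose_spec.2
  let sq : ∀ n, F n := fun n => Nat.rec (motive := F) ⟨χ₀, h0⟩ nx n
  have hsq : ∀ n w, lev T N v₀ w ≤ n → (sq (n + 1)).1 w = (sq n).1 w := fun n w hw =>
    hnx n (sq n) w hw
  have hst : ∀ n w, lev T N v₀ w ≤ n → (sq n).1 w = (sq (lev T N v₀ w)).1 w := by
    intro n
    induction n with
    | zero =>
      intro w hw
      rw [Nat.le_zero.mp hw]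
    | succ n ih =>
      intro w hw
      rcases Nat.lt_or_ge n (lev T N v₀ w) with h | h
      · have h' : lev T N v₀ w = n + 1 := by omega
        rw [h']
      · rw [hsq n w h, ih w h]
  refine ⟨fun w => (sq (lev T N v₀ w)).1 w, ?_, ?_, ?_, ?_⟩
  · change (sq (lev T N v₀ v₀)).1 v₀ z ≠ 0
    rw [lev_self hA v₀]
    exact h0'
  · intro w
    exact (sq (lev T N v₀ w)).2.1 w le_rfl
  · intro γ hγ w x hx
    change (sq (lev T N v₀ (γ • w))).1 (γ • w) (γ * x * γ⁻¹) = (sq (lev T N v₀ w)).1 w x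
    rw [lev_smul hA v₀ w γ hγ]
    exact (sq (lev T N v₀ w)).2.2.1 γ hγ w le_rfl x hx
  · intro a b hadj x hxa hxb
    change (sq (lev T N v₀ a)).1 a x = (sq (lev T N v₀ b)).1 b x
    have h1 := hst (max (lev T N v₀ a) (lev T N v₀ b)) a (le_max_left _ _)
    have h2 := hst (max (lev T N v₀ a) (lev T N v₀ b)) b (le_max_right _ _)
    rw [← h1, ← h2]
    exact (sq _).2.2.2 a b hadj (le_max_left _ _) (le_max_right _ _) x hxa hxb

end Fam

end Pool.Agent.H694.TR
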