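import Pool.Agent.H694.TR.Main

/-!
Groups acting on trees: the elements which centralize subgroups of finite index of the stabilizers.
-/

set_option autoImplicit false

namespace Pool.Agent.H694.TR

open Pool.Agent.H40R2.Zd Pool.Agent.Y110.FJ Pool.Agent.R684.FP
open Pool.Agent.R941.FJ (C_equiv C_le)
open Pool.Agent.Y462.SS (Closed)
open scoped commutatorElement

/-- The subgroup of the elements which centralize a subgroup of finite index of each point
stabilizer. -/
def vcen (G V : Type) [Group G] [MulAction G V] : Subgroup G where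
  carrier := {g | ∀ v : V, (Subgroup.centralizer {g}).relIndex (MulAction.stabilizer G v) ≠ 0}
  one_mem' v := by
    have h : MulAction.stabilizer G v ≤ Subgroup.centralizer {(1 : G)} := by
      intro x _
      rw [Subgroup.mem_centralizer_singleton_iff]
      simp
    rw [Subgroup.relIndex_eq_one.mpr h]
    exact one_ne_zero
  mul_mem' {a b} ha hb v := by
    have h := Subgroup.relIndex_inf_ne_zero (ha v) (hb v)
    refine mt (Subgroup.relIndex_eq_zero_of_le_left ?_) h
    intro x hx
    have h1 := Subgroup.mem_centralizer_singleton_iff.mp hx.1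
    have h2 := Subgroup.mem_centralizer_singleton_iff.mp hx.2
    rw [Subgroup.mem_centralizer_singleton_iff]
    rw [← mul_assoc, h1, mul_assoc, h2, mul_assoc]
  inv_mem' {a} ha v := by
    refine mt (Subgroup.relIndex_eq_zero_of_le_left ?_) (ha v)
    intro x hx
    rw [Subgroup.mem_centralizer_singleton_iff] at hx ⊢
    rw [mul_inv_eq_iff_eq_mul, mul_assoc, hx, inv_mul_cancel_left]

instance vcen_normal (G V : Type) [Group G] [MulAction G V] : (vcen G V).Normal := by
  constructor
  intro g hg x v
  have h1 := hg (x⁻¹ • v)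
  have e1 : MulAction.stabilizer G v = (MulAction.stabilizer G (x⁻¹ • v)).map
      (MulAut.conj x).toMonoidHom := by
    have h := MulAction.stabilizer_smul_eq_stabilizer_map_conj x (x⁻¹ • v)
    rwa [smul_inv_smul] at h
  have e2 : (Subgroup.centralizer {g}).map (MulAut.conj x).toMonoidHom ≤
      Subgroup.centralizer {x * g * x⁻¹} := by
    rintro _ ⟨y, hy, rfl⟩
    have hy' : y * g = g * y := Subgroup.mem_centralizer_singleton_iff.mp hy
    rw [Subgroup.mem_centralizer_singleton_iff]
    change x * y * x⁻¹ * (x * g * x⁻¹) = x * g * x⁻¹ * (x * y * x⁻¹)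
    have t1 : x * y * x⁻¹ * (x * g * x⁻¹) = x * (y * g) * x⁻¹ := by group
    have t2 : x * g * x⁻¹ * (x * y * x⁻¹) = x * (g * y) * x⁻¹ := by group
    rw [t1, t2, hy']
  rw [e1]
  refine mt (Subgroup.relIndex_eq_zero_of_le_left e2) ?_
  rw [Subgroup.relIndex_map_map_of_injective _ _ (MulAut.conj x).injective]
  exact h1

/-- A torsion-free group in which the centralizers of the elements have finite index is abelian. -/
theorem fc_comm {G : Type} [Group G] (B : Subgroup G) (x y : G) (hxB : x ∈ B) (hyB : y ∈ B)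
    (hx : (Subgroup.centralizer {x}).relIndex B ≠ 0)
    (hy : (Subgroup.centralizer {y}).relIndex B ≠ 0)
    (ht : IsOfFinOrder (x * y * x⁻¹ * y⁻¹) → x * y * x⁻¹ * y⁻¹ = 1) : x * y = y * x := by
  let H : Subgroup G := Subgroup.closure {x, y}
  have hxH : x ∈ H := Subgroup.subset_closure (by simp)
  have hyH : y ∈ H := Subgroup.subset_closure (by simp)
  have hHB : H ≤ B := by
    rw [Subgroup.closure_le]
    rintro z (rfl | rfl)
    · exact hxB
    · exact hyB
  have h1 : (Subgroup.centralizer {x} ⊓ Subgroup.centralizer {y}).relIndex H ≠ 0 :=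
    mt (Subgroup.relIndex_eq_zero_of_le_right hHB) (Subgroup.relIndex_inf_ne_zero hx hy)
  have h2 : (Subgroup.centralizer {x} ⊓ Subgroup.centralizer {y}).subgroupOf H ≤
      Subgroup.center H := by
    rintro ⟨z, hz⟩ hzc
    rw [Subgroup.mem_center_iff]
    rintro ⟨w, hw⟩
    apply Subtype.ext
    change w * z = z * w
    have hzx : z * x = x * z := Subgroup.mem_centralizer_singleton_iff.mp hzc.1
    have hzy : z * y = y * z := Subgroup.mem_centralizer_singleton_iff.mp hzc.2
    have h3 : H ≤ Subgroup.centralizer {z} := by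
      rw [Subgroup.closure_le]
      rintro u (rfl | rfl)
      · exact Subgroup.mem_centralizer_singleton_iff.mpr hzx.symm
      · exact Subgroup.mem_centralizer_singleton_iff.mpr hzy.symm
    exact Subgroup.mem_centralizer_singleton_iff.mp (h3 hw)
  have h3 : (Subgroup.center H).index ≠ 0 := by
    intro h0
    apply h1
    have := Subgroup.relIndex_eq_zero_of_le_left (L := ⊤) h2
      (by rw [Subgroup.relIndex_top_right]; exact h0)
    rw [Subgroup.relIndex_top_right] at this
    exact this
  have : (Subgroup.center H).FiniteIndex := ⟨h3⟩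
  let x' : H := ⟨x, hxH⟩
  let y' : H := ⟨y, hyH⟩
  have h4 : (⁅x', y'⁆ : H) ^ (Subgroup.center H).index = 1 := by
    rw [← MonoidHom.transferCenterPow_apply]
    have h5 : MonoidHom.transferCenterPow H ⁅x', y'⁆ = 1 := by
      rw [map_commutatorElement, commutatorElement_eq_one_iff_mul_comm]
      exact Subtype.ext (Subgroup.mem_center_iff.mp (MonoidHom.transferCenterPow H y').2 _)
    rw [h5]
    rfl
  have h5 : (x * y * x⁻¹ * y⁻¹) ^ (Subgroup.center H).index = 1 := congrArg Subtype.val h4
  have h6 : x * y * x⁻¹ * y⁻¹ = 1 :=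
    ht (isOfFinOrder_iff_pow_eq_one.mpr ⟨_, Nat.pos_of_ne_zero h3, h5⟩)
  exact commutatorElement_eq_one_iff_mul_comm.mp h6

variable {C : ∀ (G : Type) [Group G], Prop}

/-- **Groups acting on trees, and commensurations of the stabilizers.** -/
theorem comm_tree (hC : ClosedE C) (hF : FbC C) (hS : Sol C) {G V : Type} [Group G]
    [MulAction G V] {T : SimpleGraph V} (hA : TreeAct G V T)
    (ht : ∀ (v : V) (x : G), x • v = v → x ∈ vcen G V → IsOfFinOrder x → x = 1)
    (hQ : C (G ⧸ vcen G V)) : C G := by
  refine act_tree hC hF hS hA (QuotientGroup.mk' (vcen G V)) hQ ?_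
  intro v x y hx hy h1 h2
  have hxv : x ∈ vcen G V := (QuotientGroup.eq_one_iff x).mp h1
  have hyv : y ∈ vcen G V := (QuotientGroup.eq_one_iff y).mp h2
  refine fc_comm (MulAction.stabilizer G v) x y hx hy (hxv v) (hyv v) (ht v _ ?_ ?_)
  · rw [mul_smul, mul_smul, mul_smul, inv_smul_eq_iff.mpr hy.symm, inv_smul_eq_iff.mpr hx.symm, hy,
      hx]
  · exact Subgroup.mul_mem _ (Subgroup.mul_mem _ (Subgroup.mul_mem _ hxv hyv)
      (Subgroup.inv_mem _ hxv)) (Subgroup.inv_mem _ hyv)

end Pool.Agent.H694.TR
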