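import Pool.Agent.H694.TR.Char

/-!
Groups acting on trees with abelian stabilizers: the derived group of the subgroup generated by the
stabilizers acts freely.
-/

set_option autoImplicit false

namespace Pool.Agent.H694.TR

open Pool.Agent.H40R2.Zd

variable {N V : Type} [Group N] [MulAction N V] {T : SimpleGraph V}

theorem TreeAct.sub (hA : TreeAct N V T) (S : Subgroup N) : TreeAct S V T where
  tree := hA.tree
  adj γ u v h := hA.adj (γ : N) u v h
  inv γ u v h h' := hA.inv (γ : N) u v h h'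

/-- The characters of the stabilizers extend. -/
theorem ex_ext (hA : TreeAct N V T)
    (hab : ∀ (w : V), ∀ x ∈ MulAction.stabilizer N w, ∀ y ∈ MulAction.stabilizer N w,
      x * y = y * x) (v₀ : V) (z : N) (hz : z ∈ MulAction.stabilizer N v₀) (hz1 : z ≠ 1) :
    ∃ f : Ell N V →* Multiplicative QZ, f ⟨z, stab_le_Ell v₀ hz⟩ ≠ 1 := by
  obtain ⟨χ, h0, h1, h2, h3⟩ := ex_fam hA hab v₀ z hz hz1
  obtain ⟨r, g, hg, hr⟩ := ex_rep (V := V) (Ell N V)
  have hst : ∀ (n : Ell N V) w, (g ((n : N) • w))⁻¹ * (n : N) * g w ∈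
      MulAction.stabilizer N (r w) := by
    intro n w
    rw [MulAction.mem_stabilizer_iff, mul_smul, mul_smul, (hg w).2, inv_smul_eq_iff]
    have := (hg ((n : N) • w)).2
    rw [hr (n : N) n.2] at this
    exact this.symm
  let c : Ell N V → V → QZ := fun n w => χ (r w) ((g ((n : N) • w))⁻¹ * (n : N) * g w)
  have hc : ∀ n m w, c (n * m) w = c n (m • w) + c m w := by
    intro n m w
    change χ (r w) ((g (((n * m : Ell N V) : N) • w))⁻¹ * ((n * m : Ell N V) : N) * g w) =
      χ (r ((m : N) • w)) ((g ((n : N) • (m : N) • w))⁻¹ * (n : N) * g ((m : N) • w)) +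
        χ (r w) ((g ((m : N) • w))⁻¹ * (m : N) * g w)
    have h4 := hst n ((m : N) • w)
    rw [hr (m : N) m.2] at h4 ⊢
    rw [← h1 (r w) _ h4 _ (hst m w)]
    congr 1
    rw [Subgroup.coe_mul, mul_smul]
    group
  have hcs : ∀ (w : V) (x : Ell N V), (x : N) • w = w → c x w = χ w x := by
    intro w x hx
    change χ (r w) ((g ((x : N) • w))⁻¹ * (x : N) * g w) = χ w x
    have h4 : (g w)⁻¹ * (x : N) * g w ∈ MulAction.stabilizer N (r w) := by
      have := hst x w
      rwa [hx] at this
    rw [hx]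
    have h5 := h2 (g w) (hg w).1 (r w) _ h4
    rw [(hg w).2] at h5
    rw [← h5]
    congr 1
    group
  obtain ⟨f, hf⟩ := ex_hom (hA.sub (Ell N V)) c hc
    (fun a b hab' x hxa hxb => by
      rw [hcs a x hxa, hcs b x hxb]
      exact h3 a b hab' x hxa hxb)
    (fun a b => lev T N v₀ a < lev T N v₀ b)
    (fun a b hadj => by
      rcases dich hA v₀ hadj with h | h
      · have := h.1
        constructor
        · intro; omega
        · intro; omega
      · constructor
        · intro; omega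
        · intro; omega)
    (fun n a b _ => by
      change lev T N v₀ ((n : N) • a) < lev T N v₀ ((n : N) • b) ↔ _
      rw [lev_smul hA v₀ a (n : N) n.2, lev_smul hA v₀ b (n : N) n.2])
  refine ⟨f, ?_⟩
  rw [hf v₀ ⟨z, stab_le_Ell v₀ hz⟩ hz, hcs v₀ ⟨z, stab_le_Ell v₀ hz⟩ hz]
  intro h
  exact h0 (Multiplicative.ofAdd.injective h)

/-- The derived group of the subgroup generated by the stabilizers acts freely. -/
theorem comm_stab (hA : TreeAct N V T)
    (hab : ∀ (w : V), ∀ x ∈ MulAction.stabilizer N w, ∀ y ∈ MulAction.stabilizer N w,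
      x * y = y * x) (v : V) (z : N) (hz : z ∈ (⁅Ell N V, Ell N V⁆ : Subgroup N))
    (hzv : z • v = v) : z = 1 := by
  by_contra hz1
  obtain ⟨f, hf⟩ := ex_ext hA hab v z hzv hz1
  apply hf
  rw [← Subgroup.map_subtype_commutator] at hz
  obtain ⟨y, hy, hyz⟩ := hz
  have h1 : y = ⟨z, stab_le_Ell v hzv⟩ := Subtype.ext hyz
  rw [← h1]
  exact Abelianization.commutator_subset_ker f hy

theorem comm_free (hA : TreeAct N V T)
    (hab : ∀ (w : V), ∀ x ∈ MulAction.stabilizer N w, ∀ y ∈ MulAction.stabilizer N w,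
      x * y = y * x) : IsFreeGroup (⁅Ell N V, Ell N V⁆ : Subgroup N) := by
  refine free_of_tree (N := (⁅Ell N V, Ell N V⁆ : Subgroup N)) T hA.tree
    (fun γ u v h => hA.adj (γ : N) u v h) (fun γ v h => ?_) (fun γ u v h h' => hA.inv (γ : N) u v h h')
  exact Subtype.ext (comm_stab hA hab v γ γ.2 h)

end Pool.Agent.H694.TR
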