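import Pool.Agent.H694.TR.Red

/-!
The levels of the vertices of a tree with a group action without inversions: the quotient by the
subgroup generated by the stabilizers is a tree.
-/

set_option autoImplicit false

namespace Pool.Agent.H694.TR

open Pool.Agent.H40R2.Zd

variable {N V : Type} [Group N] [MulAction N V] {T : SimpleGraph V}

section Lev

open Classical in
/-- The distance from the class of `w` to the class of `v₀` modulo the subgroup generated by the
stabilizers. -/
noncomputable def lev {V : Type} (T : SimpleGraph V) (N : Type) [Group N] [MulAction N V]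
    (v₀ w : V) : ℕ := (Ps T N v₀ w).toWord.length / 2

theorem lev_min (hA : TreeAct N V T) {w v₀ : V} (p : T.Walk w v₀) (hp : Min (Ell N V) p) :
    lev T N v₀ w = p.length := by
  classical
  unfold lev
  rw [Ps_norm hA (Ell N V) stab_le_Ell p hp, wl_length]
  omega

theorem lev_smul (hA : TreeAct N V T) (v₀ w : V) (γ : N) (h : γ ∈ Ell N V) :
    lev T N v₀ (γ • w) = lev T N v₀ w := by
  classical
  unfold lev
  rw [Ps_inv hA v₀ w γ h]

theorem lev_zero (hA : TreeAct N V T) (v₀ w : V) (h : lev T N v₀ w = 0) :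
    ∃ γ ∈ Ell N V, γ • w = v₀ := by
  obtain ⟨γ, hγ, p, hp⟩ := ex_min hA (Ell N V) w v₀
  refine ⟨γ, hγ, ?_⟩
  have h1 := lev_min hA p hp
  rw [lev_smul hA v₀ w γ hγ, h] at h1
  exact SimpleGraph.Walk.eq_of_length_eq_zero h1.symm

theorem lev_self (hA : TreeAct N V T) (v₀ : V) : lev T N v₀ v₀ = 0 := by
  classical
  unfold lev
  rw [Ps_self hA.tree, FreeGroup.toWord_one]
  simp

theorem ex_parent (hA : TreeAct N V T) (v₀ b : V) (n : ℕ) (h : lev T N v₀ b = n + 1) :
    ∃ a, T.Adj b a ∧ lev T N v₀ a = n := by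
  obtain ⟨γ, hγ, p, hp⟩ := ex_min hA (Ell N V) b v₀
  have h1 := lev_min hA p hp
  rw [lev_smul hA v₀ b γ hγ, h] at h1
  generalize hb : γ • b = b' at p hp h1
  cases p with
  | nil => simp at h1
  | @cons _ u _ h' q =>
    refine ⟨γ⁻¹ • u, ?_, ?_⟩
    · have h2 := hA.adj γ⁻¹ b' u h'
      rw [← hb, inv_smul_smul] at h2
      exact h2
    · rw [lev_smul hA v₀ u γ⁻¹ ((Subgroup.inv_mem_iff _).mpr hγ), lev_min hA q (Min.tail hA hp)]
      rw [SimpleGraph.Walk.length_cons] at h1
      omega

open Classical in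
/-- Adjacent vertices have different levels; the word of a vertex above its neighbour `a`. -/
theorem dich (hA : TreeAct N V T) (v₀ : V) {a b : V} (h : T.Adj b a) :
    (lev T N v₀ b = lev T N v₀ a + 1 ∧
      (Ps T N v₀ b).toWord.head? = some (dmk N b a, true)) ∨
    lev T N v₀ a = lev T N v₀ b + 1 := by
  obtain ⟨γ, hγ, p, hp⟩ := ex_min hA (Ell N V) a v₀
  have h1 := lev_min hA p hp
  have hl := lev_smul hA v₀ a γ hγ
  have hlb := lev_smul hA v₀ b γ hγ
  have hd : dmk N (γ • b) (γ • a) = dmk N b a := dmk_smul γ b a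
  have hP := Ps_inv hA v₀ b γ hγ
  have h' : T.Adj (γ • b) (γ • a) := hA.adj γ b a h
  rw [← hl, ← hlb, ← hd, ← hP]
  generalize hb : γ • b = b' at *
  generalize ha : γ • a = a' at *
  by_cases hc : ∃ (x : V) (h2 : T.Adj a' x) (q : T.Walk x v₀), p = SimpleGraph.Walk.cons h2 q ∧
      dmk N a' b' = dmk N a' x
  · right
    obtain ⟨x, h2, q, rfl, hq⟩ := hc
    obtain ⟨δ, h3, h4⟩ := dmk_eq hq
    have h5 : δ ∈ Ell N V := stab_le_Ell a' h3
    have h6 := lev_smul hA v₀ b' δ h5
    rw [h4] at h6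
    rw [← h6, h1, lev_min hA q (Min.tail hA hp), SimpleGraph.Walk.length_cons]
  · left
    have h2 : FreeGroup.IsReduced (wl N T (SimpleGraph.Walk.cons h' p)) := by
      refine red_cons hA h' p (wl_red hA (Ell N V) stab_le_Ell p hp) ?_
      intro x h3 q hq he
      exact hc ⟨x, h3, q, hq, he⟩
    have h3 : (Ps T N v₀ b').toWord = wl N T (SimpleGraph.Walk.cons h' p) := by
      rw [Ps_eq hA.tree (SimpleGraph.Walk.cons h' p), wt, FreeGroup.toWord_mk, h2.reduce_eq]
    constructor
    · rw [h1]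
      unfold lev
      rw [h3, wl_length, SimpleGraph.Walk.length_cons]
      omega
    · rw [h3]
      rfl

/-- The edges over an edge of the quotient are conjugate. -/
theorem edge_unique (hA : TreeAct N V T) (v₀ : V) {a b a' b' : V} (h : T.Adj b a)
    (h' : T.Adj b' a') (hl : lev T N v₀ b = lev T N v₀ a + 1)
    (hl' : lev T N v₀ b' = lev T N v₀ a' + 1) (γ : N) (hγ : γ ∈ Ell N V) (hb : γ • b = b') :
    ∃ δ ∈ Ell N V, δ • b = b' ∧ δ • a = a' := by
  classical
  have h1 : (Ps T N v₀ b).toWord.head? = some (dmk N b a, true) := by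
    rcases dich hA v₀ h with h2 | h2
    · exact h2.2
    · omega
  have h1' : (Ps T N v₀ b').toWord.head? = some (dmk N b' a', true) := by
    rcases dich hA v₀ h' with h2 | h2
    · exact h2.2
    · omega
  rw [← hb, Ps_inv hA v₀ b γ hγ, h1, hb] at h1'
  have h2 : dmk N b a = dmk N b' a' := by
    have := Option.some.inj h1'
    exact congrArg Prod.fst this
  obtain ⟨δ, h3, h4⟩ := dmk_eq h2
  refine ⟨δ, ?_, h3, h4⟩
  have h5 : γ⁻¹ * δ ∈ Ell N V := stab_le_Ell b (by
    rw [MulAction.mem_stabilizer_iff, mul_smul, h3, ← hb, inv_smul_smul])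
  exact (Subgroup.mul_mem_cancel_left _ ((Subgroup.inv_mem_iff _).mpr hγ)).mp h5

end Lev

end Pool.Agent.H694.TR
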