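import Pool.Agent.H694.TR.Free
import Pool.Agent.R684.FP.Free

/-!
Extensions whose kernel acts on a tree with abelian stabilizers.
-/

set_option autoImplicit false

namespace Pool.Agent.H694.TR

open Pool.Agent.H40R2.Zd Pool.Agent.Y110.FJ Pool.Agent.R684.FP
open Pool.Agent.R941.FJ (C_equiv C_le)
open Pool.Agent.Y462.SS (Closed)
open scoped commutatorElement

variable {C : ∀ (G : Type) [Group G], Prop}

/-- The class contains the solvable groups. -/
def Sol (C : ∀ (G : Type) [Group G], Prop) : Prop :=
  ∀ (S : Type) [Group S], Group.IsSolvable S → C S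

/-- extensions by abelian groups -/
theorem ab_ext (hC : ClosedE C) (hS : Sol C) {G : Type} [Group G] (A : Subgroup G) [A.Normal]
    (hA : ∀ x ∈ A, ∀ y ∈ A, x * y = y * x) (hQ : C (G ⧸ A)) : C G := by
  have hsA : Group.IsSolvable A := Group.isSolvable_of_comm fun x y => Subtype.ext (hA x x.2 y y.2)
  refine Pool.Agent.Y529.FJ.t_ext C hC G A (hS _ hsA) hQ fun g _ => hS _ ?_
  let H : Subgroup G := A ⊔ Subgroup.zpowers g
  let Z : Subgroup (G ⧸ A) := Subgroup.zpowers (QuotientGroup.mk' A g)
  have hmem : ∀ x : H, QuotientGroup.mk' A (x : G) ∈ Z := by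
    intro x
    have h1 : H ≤ Z.comap (QuotientGroup.mk' A) := by
      refine sup_le ?_ ?_
      · intro y hy
        rw [Subgroup.mem_comap]
        have : QuotientGroup.mk' A y = 1 := (QuotientGroup.eq_one_iff y).mpr hy
        rw [this]
        exact Z.one_mem
      · rw [Subgroup.zpowers_le]
        exact Subgroup.mem_zpowers _
    exact h1 x.2
  let q : H →* Z := ((QuotientGroup.mk' A).comp H.subtype).codRestrict Z hmem
  have hsZ : Group.IsSolvable Z := Group.isSolvable_of_comm (by
    rintro ⟨_, a, rfl⟩ ⟨_, b, rfl⟩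
    exact Subtype.ext (zpow_mul_comm _ a b))
  refine Group.isSolvable_of_ker_le_range (Subgroup.inclusion (le_sup_left : A ≤ H)) q ?_
  intro x hx
  have h2 : QuotientGroup.mk' A (x : G) = 1 := congrArg Subtype.val hx
  exact ⟨⟨x, (QuotientGroup.eq_one_iff _).mp h2⟩, rfl⟩

/-- **Extensions whose kernel acts on a tree with abelian stabilizers**, such that the subgroup
generated by the stabilizers is normal. -/
theorem ext_tree (hC : ClosedE C) (hF : FbC C) (hS : Sol C) {G V : Type} [Group G]
    (M : Subgroup G) [M.Normal] [MulAction M V] {T : SimpleGraph V} (hA : TreeAct M V T)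
    (hab : ∀ (w : V), ∀ x ∈ MulAction.stabilizer M w, ∀ y ∈ MulAction.stabilizer M w,
      x * y = y * x)
    (hn : ((Ell M V).map M.subtype).Normal) (hQ : C (G ⧸ M)) : C G := by
  let S : Subgroup M := Ell M V
  let M₀ : Subgroup G := S.map M.subtype
  have : M₀.Normal := hn
  have hM₀ : M₀ ≤ M := Subgroup.map_subtype_le _
  let L : Subgroup G := ⁅M₀, M₀⁆
  have hLM : L ≤ M₀ := Subgroup.commutator_le_left M₀ M₀
  -- `L` is free
  have hL : L = (⁅S, S⁆ : Subgroup M).map M.subtype := (Subgroup.map_commutator S S M.subtype).symm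
  have hLfree : IsFreeGroup L := by
    have := comm_free hA hab
    have e : (⁅S, S⁆ : Subgroup M) ≃* ((⁅S, S⁆ : Subgroup M).map M.subtype) :=
      Subgroup.equivMapOfInjective _ M.subtype M.subtype_injective
    have h1 : IsFreeGroup ((⁅S, S⁆ : Subgroup M).map M.subtype) := IsFreeGroup.ofMulEquiv e
    rw [hL]
    exact h1
  refine free_ext hC hF L ?_
  -- `G / M₀` is in the class
  have hQ₀ : C (G ⧸ M₀) := by
    let K : Subgroup (G ⧸ M₀) := M.map (QuotientGroup.mk' M₀)
    have : K.Normal := Subgroup.Normal.map inferInstance _ (QuotientGroup.mk'_surjective M₀)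
    let p : M →* K := ((QuotientGroup.mk' M₀).comp M.subtype).codRestrict K
      fun x => ⟨x, x.2, rfl⟩
    have hp : Function.Surjective p := by
      rintro ⟨_, x, hx, rfl⟩
      exact ⟨⟨x, hx⟩, rfl⟩
    have hk : p.ker = S := by
      ext x
      rw [MonoidHom.mem_ker]
      constructor
      · intro h
        have h1 : QuotientGroup.mk' M₀ (x : G) = 1 := congrArg Subtype.val h
        obtain ⟨y, hy, hyx⟩ := (QuotientGroup.eq_one_iff (x : G)).mp h1
        have h2 : y = x := Subtype.ext hyx
        rw [← h2]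
        exact hy
      · intro h
        apply Subtype.ext
        exact (QuotientGroup.eq_one_iff (x : G)).mpr ⟨x, h, rfl⟩
    have : IsFreeGroup (M ⧸ S) := quot_free hA
    have e1 : M ⧸ p.ker ≃* K := QuotientGroup.quotientKerEquivOfSurjective p hp
    have e2 : M ⧸ S ≃* M ⧸ p.ker := QuotientGroup.quotientMulEquivOfEq hk.symm
    have : IsFreeGroup K := IsFreeGroup.ofMulEquiv (e2.trans e1)
    refine free_ext hC hF K ?_
    exact C_equiv hC.base (QuotientGroup.quotientQuotientEquivQuotient M₀ M hM₀) hQ
  -- `G / L` is in the class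
  let A : Subgroup (G ⧸ L) := M₀.map (QuotientGroup.mk' L)
  have : A.Normal := Subgroup.Normal.map inferInstance _ (QuotientGroup.mk'_surjective L)
  refine ab_ext hC hS A ?_ (C_equiv hC.base (QuotientGroup.quotientQuotientEquivQuotient L M₀ hLM) hQ₀)
  rintro _ ⟨x, hx, rfl⟩ _ ⟨y, hy, rfl⟩
  have h1 : ⁅x, y⁆ ∈ L := Subgroup.commutator_mem_commutator hx hy
  have h2 : QuotientGroup.mk' L ⁅x, y⁆ = 1 := (QuotientGroup.eq_one_iff _).mpr h1
  rw [map_commutatorElement] at h2
  exact commutatorElement_eq_one_iff_mul_comm.mp h2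

/-- **Groups acting on trees with a homomorphism to a group in the class whose kernel meets the
stabilizers in abelian groups.** -/
theorem act_tree (hC : ClosedE C) (hF : FbC C) (hS : Sol C) {G Q V : Type} [Group G] [Group Q]
    [MulAction G V] {T : SimpleGraph V} (hA : TreeAct G V T) (π : G →* Q) (hQ : C Q)
    (hab : ∀ (v : V) (x y : G), x • v = v → y • v = v → π x = 1 → π y = 1 → x * y = y * x) :
    C G := by
  refine ext_tree hC hF hS π.ker (V := V) (hA.sub π.ker) ?_ ?_ ?_
  · intro w x hx y hy
    exact Subtype.ext (hab w x y hx hy x.2 y.2)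
  · constructor
    rintro _ ⟨n, hn, rfl⟩ g
    have h1 : ∀ n ∈ Ell π.ker V, (MulAut.conjNormal g n) ∈ Ell π.ker V := by
      have h2 : Ell π.ker V ≤ (Ell π.ker V).comap (MulAut.conjNormal (H := π.ker) g).toMonoidHom := by
        refine iSup_le ?_
        intro v x hx
        rw [Subgroup.mem_comap]
        apply stab_le_Ell (g • v)
        rw [MulAction.mem_stabilizer_iff]
        have h3 : (x : G) • v = v := hx
        change (g * (x : G) * g⁻¹) • g • v = g • v
        rw [mul_smul, mul_smul, inv_smul_smul, h3]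
      exact fun n hn => h2 hn
    exact ⟨MulAut.conjNormal g n, h1 n hn, rfl⟩
  · exact hC.base.of_injective _ _ (QuotientGroup.kerLift π) (QuotientGroup.kerLift_injective π) hQ

end Pool.Agent.H694.TR
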