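import Pool.Agent.H694.TR.Lev

/-!
Homomorphisms from a group acting on a tree to an abelian group with prescribed restrictions to the
stabilizers.
-/

set_option autoImplicit false

namespace Pool.Agent.H694.TR

open Pool.Agent.H40R2.Zd

section Walk

variable {V : Type} {T : SimpleGraph V} {J : Type} [AddCommGroup J]

/-- The sum of a function of the edges along a walk. -/
def ws (h : V → V → J) : ∀ {u v : V}, T.Walk u v → J
  | _, _, .nil => 0
  | u, _, .cons (v := v) _ p => h u v + ws h p

theorem ws_append (h : V → V → J) {u v w : V} (p : T.Walk u v) (q : T.Walk v w) :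
    ws h (p.append q) = ws h p + ws h q := by
  induction p with
  | nil => simp [ws]
  | cons h' p ih => rw [SimpleGraph.Walk.cons_append, ws, ws, ih, add_assoc]

theorem ws_eq_path (hT : T.IsTree) (h : V → V → J) (hh : ∀ u v, T.Adj u v → h u v + h v u = 0)
    {u v : V} (p : T.Walk u v) : ∀ q : T.Walk u v, q.IsPath → ws h p = ws h q := by
  classical
  have huniq : ∀ {a b : V} (p q : T.Walk a b), p.IsPath → q.IsPath → p = q := by
    intro a b p q hp hq
    have := hT.isAcyclic.path_unique ⟨p, hp⟩ ⟨q, hq⟩
    exact congrArg Subtype.val this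
  induction p with
  | nil =>
    intro q hq
    rw [huniq q SimpleGraph.Walk.nil hq SimpleGraph.Walk.IsPath.nil]
  | @cons u v w h' p ih =>
    intro q hq
    set q' : T.Walk v w := p.bypass with hq'
    have hq'p : q'.IsPath := p.bypass_isPath
    rw [ws, ih q' hq'p]
    by_cases hu : u ∈ q'.support
    · have h1 := q'.take_spec hu
      have h2 : q'.takeUntil u hu = SimpleGraph.Walk.cons h'.symm SimpleGraph.Walk.nil := by
        apply huniq _ _ (hq'p.takeUntil hu)
        simp [h'.ne']
      have h3 : q'.dropUntil u hu = q := huniq _ _ (hq'p.dropUntil hu) hq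
      rw [← h1, ws_append, h2, h3, ws, ws, add_zero, ← add_assoc, hh u v h', zero_add]
    · have h1 : SimpleGraph.Walk.cons h' q' = q := by
        apply huniq _ _ _ hq
        rw [SimpleGraph.Walk.cons_isPath_iff]
        exact ⟨hq'p, hu⟩
      rw [← h1, ws]

theorem ws_eq (hT : T.IsTree) (h : V → V → J) (hh : ∀ u v, T.Adj u v → h u v + h v u = 0)
    {u v : V} (p q : T.Walk u v) : ws h p = ws h q := by
  classical
  rw [ws_eq_path hT h hh p q.bypass q.bypass_isPath, ws_eq_path hT h hh q q.bypass q.bypass_isPath]

/-- Potentials on a tree. -/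
theorem ex_pot (hT : T.IsTree) (h : V → V → J) (hh : ∀ u v, T.Adj u v → h u v + h v u = 0) :
    ∃ H : V → J, ∀ a b, T.Adj a b → H a = h a b + H b := by
  obtain ⟨v₀⟩ := hT.connected.nonempty
  have hw : ∀ u : V, Nonempty (T.Walk u v₀) := fun u => hT.connected.preconnected u v₀
  refine ⟨fun u => ws h (Classical.choice (hw u)), fun a b hab => ?_⟩
  change ws h (Classical.choice (hw a)) = h a b + ws h (Classical.choice (hw b))
  rw [ws_eq hT h hh (Classical.choice (hw a))
    (SimpleGraph.Walk.cons hab (Classical.choice (hw b))), ws]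

end Walk

section Coc

variable {K V : Type} [Group K] [MulAction K V] {T : SimpleGraph V} {J : Type} [AddCommGroup J]

/-- A cocycle on the vertices which is symmetric on the stabilizers of the edges comes from a
homomorphism. -/
theorem ex_hom (hA : TreeAct K V T) (c : K → V → J)
    (hc : ∀ n m w, c (n * m) w = c n (m • w) + c m w)
    (hs : ∀ a b, T.Adj a b → ∀ x : K, x • a = a → x • b = b → c x a = c x b)
    (O : V → V → Prop) (hO : ∀ a b, T.Adj a b → (O a b ↔ ¬ O b a))
    (hOi : ∀ (n : K) a b, T.Adj a b → (O (n • a) (n • b) ↔ O a b)) :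
    ∃ f : K →* Multiplicative J, ∀ (w : V) (x : K), x • w = w →
      f x = Multiplicative.ofAdd (c x w) := by
  classical
  obtain ⟨v₀⟩ := hA.tree.connected.nonempty
  -- representatives of the pairs
  have hrep : ∀ a b : V, ∃ k : K, k • (Quotient.out (dmk K a b)).1 = a ∧
      k • (Quotient.out (dmk K a b)).2 = b := by
    intro a b
    have h1 : (dmk K a b) = dmk K (Quotient.out (dmk K a b)).1 (Quotient.out (dmk K a b)).2 :=
      (Quotient.out_eq (dmk K a b)).symm
    obtain ⟨k, h2, h3⟩ := dmk_eq h1.symm
    exact ⟨k, h2, h3⟩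
  choose k hk1 hk2 using hrep
  let ra : V → V → V := fun a b => (Quotient.out (dmk K a b)).1
  let rb : V → V → V := fun a b => (Quotient.out (dmk K a b)).2
  have hra : ∀ (n : K) a b, ra (n • a) (n • b) = ra a b := by
    intro n a b
    change (Quotient.out (dmk K (n • a) (n • b))).1 = _
    rw [dmk_smul]
  have hrb : ∀ (n : K) a b, rb (n • a) (n • b) = rb a b := by
    intro n a b
    change (Quotient.out (dmk K (n • a) (n • b))).2 = _
    rw [dmk_smul]
  have hradj : ∀ a b, T.Adj a b → T.Adj (ra a b) (rb a b) := by
    intro a b hab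
    have h1 := hA.adj (k a b)⁻¹ a b hab
    have e1 : (k a b)⁻¹ • a = ra a b := by
      rw [inv_smul_eq_iff]
      exact (hk1 a b).symm
    have e2 : (k a b)⁻¹ • b = rb a b := by
      rw [inv_smul_eq_iff]
      exact (hk2 a b).symm
    rwa [e1, e2] at h1
  let h : V → V → J := fun a b => c (k a b) (ra a b) - c (k a b) (rb a b)
  have hh : ∀ (n : K) a b, T.Adj a b → h (n • a) (n • b) = h a b + (c n a - c n b) := by
    intro n a b hab
    obtain ⟨s, hs'⟩ : ∃ s, s = (k (n • a) (n • b))⁻¹ * (n * k a b) := ⟨_, rfl⟩
    have e1 : n * k a b = k (n • a) (n • b) * s := by rw [hs']; group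
    have s1 : s • ra a b = ra a b := by
      rw [hs', mul_smul, mul_smul, inv_smul_eq_iff]
      have := hk1 (n • a) (n • b)
      change k (n • a) (n • b) • ra (n • a) (n • b) = n • a at this
      rw [hra] at this
      rw [this]
      congr 1
      exact hk1 a b
    have s2 : s • rb a b = rb a b := by
      rw [hs', mul_smul, mul_smul, inv_smul_eq_iff]
      have := hk2 (n • a) (n • b)
      change k (n • a) (n • b) • rb (n • a) (n • b) = n • b at this
      rw [hrb] at this
      rw [this]
      congr 1
      exact hk2 a b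
    have t1 : c (n * k a b) (ra a b) = c n a + c (k a b) (ra a b) := by
      rw [hc]
      congr 2
      exact hk1 a b
    have t2 : c (n * k a b) (rb a b) = c n b + c (k a b) (rb a b) := by
      rw [hc]
      congr 2
      exact hk2 a b
    have t3 : c (n * k a b) (ra a b) = c (k (n • a) (n • b)) (ra a b) + c s (ra a b) := by
      rw [e1, hc, s1]
    have t4 : c (n * k a b) (rb a b) = c (k (n • a) (n • b)) (rb a b) + c s (rb a b) := by
      rw [e1, hc, s2]
    have t5 : c s (ra a b) = c s (rb a b) := hs _ _ (hradj a b hab) s s1 s2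
    change c (k (n • a) (n • b)) (ra (n • a) (n • b)) - c (k (n • a) (n • b)) (rb (n • a) (n • b)) =
      c (k a b) (ra a b) - c (k a b) (rb a b) + (c n a - c n b)
    rw [hra, hrb]
    have t6 : c (k (n • a) (n • b)) (ra a b) = c n a + c (k a b) (ra a b) - c s (ra a b) := by
      rw [← t1, t3, add_sub_cancel_right]
    have t7 : c (k (n • a) (n • b)) (rb a b) = c n b + c (k a b) (rb a b) - c s (rb a b) := by
      rw [← t2, t4, add_sub_cancel_right]
    rw [t6, t7, t5]
    abel
  let g : V → V → J := fun a b => if O a b then h a b else - h b a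
  have hg : ∀ a b, T.Adj a b → g a b + g b a = 0 := by
    intro a b hab
    change (if O a b then h a b else - h b a) + (if O b a then h b a else - h a b) = 0
    by_cases h1 : O a b
    · have h2 := (hO a b hab).mp h1
      rw [if_pos h1, if_neg h2, add_neg_cancel]
    · have h2 : O b a := by
        by_contra h3
        exact h1 ((hO a b hab).mpr h3)
      rw [if_neg h1, if_pos h2, neg_add_cancel]
  have hgi : ∀ (n : K) a b, T.Adj a b → g (n • a) (n • b) = g a b + (c n a - c n b) := by
    intro n a b hab
    change (if O (n • a) (n • b) then h (n • a) (n • b) else - h (n • b) (n • a)) =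
      (if O a b then h a b else - h b a) + (c n a - c n b)
    by_cases h1 : O a b
    · rw [if_pos h1, if_pos ((hOi n a b hab).mpr h1), hh n a b hab]
    · rw [if_neg h1, if_neg (fun h2 => h1 ((hOi n a b hab).mp h2)), hh n b a hab.symm]
      abel
  obtain ⟨H, hH⟩ := ex_pot hA.tree g hg
  let F : K → V → J := fun n w => c n w - H (n • w) + H w
  have hF : ∀ (n : K) a b, T.Adj a b → F n a = F n b := by
    intro n a b hab
    change c n a - H (n • a) + H a = c n b - H (n • b) + H b
    rw [hH a b hab, hH (n • a) (n • b) (hA.adj n a b hab), hgi n a b hab]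
    abel
  have hF2 : ∀ (n : K) (a b : V), F n a = F n b := by
    intro n a b
    obtain ⟨p⟩ : Nonempty (T.Walk a b) := hA.tree.connected.preconnected a b
    induction p with
    | nil => rfl
    | cons h' p ih => exact (hF n _ _ h').trans ih
  refine ⟨MonoidHom.mk' (fun n => Multiplicative.ofAdd (F n v₀)) ?_, ?_⟩
  · intro n m
    rw [← ofAdd_add]
    congr 1
    rw [hF2 n v₀ (m • v₀)]
    change c (n * m) v₀ - H ((n * m) • v₀) + H v₀ =
      (c n (m • v₀) - H (n • m • v₀) + H (m • v₀)) + (c m v₀ - H (m • v₀) + H v₀)
    rw [hc, mul_smul]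
    abel
  · intro w x hx
    change Multiplicative.ofAdd (F x v₀) = _
    congr 1
    rw [hF2 x v₀ w]
    change c x w - H (x • w) + H w = c x w
    rw [hx, sub_add_cancel]

end Coc

end Pool.Agent.H694.TR
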