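import Pool.Agent.H40R2.Zd.Serre

/-!
Groups acting on trees without inversions: the weights of walks are reduced words for the walks which
are minimal modulo a subgroup containing the stabilizers. The quotient by the subgroup generated by
the stabilizers is free.
-/

set_option autoImplicit false

namespace Pool.Agent.H694.TR

open Pool.Agent.H40R2.Zd

/-- An action on a tree by automorphisms, without inversions. -/
structure TreeAct (N V : Type) [Group N] [MulAction N V] (T : SimpleGraph V) : Prop where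
  tree : T.IsTree
  adj : ∀ (γ : N) (u v : V), T.Adj u v → T.Adj (γ • u) (γ • v)
  inv : ∀ (γ : N) (u v : V), T.Adj u v → ¬ (γ • u = v ∧ γ • v = u)

variable {N V : Type} [Group N] [MulAction N V] {T : SimpleGraph V}

/-- The walk is as short as possible modulo `S`. -/
def Min (S : Subgroup N) {w v : V} (p : T.Walk w v) : Prop :=
  ∀ γ ∈ S, p.length ≤ T.dist (γ • w) v

theorem Min.tail (hA : TreeAct N V T) {S : Subgroup N} {w u v : V} {h : T.Adj w u} {p : T.Walk u v}
    (hp : Min S (SimpleGraph.Walk.cons h p)) : Min S p := by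
  intro γ hγ
  have h1 := hp γ hγ
  rw [SimpleGraph.Walk.length_cons] at h1
  have h2 : T.dist (γ • w) v ≤ T.dist (γ • w) (γ • u) + T.dist (γ • u) v :=
    hA.tree.connected.dist_triangle
  have h3 : T.dist (γ • w) (γ • u) = 1 := SimpleGraph.dist_eq_one_iff_adj.mpr (hA.adj γ w u h)
  omega

theorem dmk_ne (hA : TreeAct N V T) {u v : V} (h : T.Adj u v) : dmk N u v ≠ dmk N v u := by
  intro hc
  obtain ⟨γ, h3, h4⟩ := dmk_eq hc
  exact hA.inv γ u v h ⟨h3, h4⟩

theorem red_cons (hA : TreeAct N V T) {w u v : V} (h : T.Adj w u) (p : T.Walk u v)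
    (hp : FreeGroup.IsReduced (wl N T p))
    (hj : ∀ (x : V) (h' : T.Adj u x) (q : T.Walk x v), p = SimpleGraph.Walk.cons h' q →
      dmk N u w ≠ dmk N u x) : FreeGroup.IsReduced (wl N T (SimpleGraph.Walk.cons h p)) := by
  have h0 := dmk_ne hA h
  cases p with
  | nil =>
    show FreeGroup.IsReduced [(dmk N w u, true), (dmk N u w, false)]
    rw [FreeGroup.isReduced_cons_cons]
    exact ⟨fun hc => absurd hc h0, FreeGroup.IsReduced.singleton⟩
  | @cons _ x _ h' q =>
    show FreeGroup.IsReduced ((dmk N w u, true) :: (dmk N u w, false) ::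
      (dmk N u x, true) :: (dmk N x u, false) :: wl N T q)
    rw [FreeGroup.isReduced_cons_cons, FreeGroup.isReduced_cons_cons]
    exact ⟨fun hc => absurd hc h0, fun hc => absurd hc (hj x h' q rfl), hp⟩

theorem wl_red (hA : TreeAct N V T) (S : Subgroup N) (hS : ∀ v : V, MulAction.stabilizer N v ≤ S)
    {w v : V} (p : T.Walk w v) (hp : Min S p) : FreeGroup.IsReduced (wl N T p) := by
  induction p with
  | nil => exact FreeGroup.IsReduced.nil
  | @cons w u v h p ih =>
    refine red_cons hA h p (ih (Min.tail hA hp)) ?_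
    rintro x h' q rfl hc
    obtain ⟨γ, h3, h4⟩ := dmk_eq hc
    have h5 := hp γ (hS u h3)
    rw [h4, SimpleGraph.Walk.length_cons, SimpleGraph.Walk.length_cons] at h5
    have h6 := SimpleGraph.dist_le q
    omega

section Psi

variable (T)

open Classical in
/-- The weight of the walks from `w` to `v₀`. -/
noncomputable def Ps (N : Type) [Group N] [MulAction N V] (v₀ w : V) : FreeGroup (PD N V) :=
  if h : Nonempty (T.Walk w v₀) then wt N T (Classical.choice h) else 1

variable {T}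

theorem Ps_eq (hT : T.IsTree) {v₀ w : V} (p : T.Walk w v₀) : Ps T N v₀ w = wt N T p := by
  unfold Ps
  rw [dif_pos ⟨p⟩]
  exact wt_eq hT _ _

theorem ex_walk (hT : T.IsTree) (u v : V) : ∃ p : T.Walk u v, p.length = T.dist u v :=
  hT.connected.exists_walk_length_eq_dist u v

theorem Ps_self (hT : T.IsTree) (v₀ : V) : Ps T N v₀ v₀ = 1 := by
  rw [Ps_eq hT SimpleGraph.Walk.nil]
  rfl

theorem Ps_cons (hT : T.IsTree) {v₀ w u : V} (h : T.Adj w u) : Ps T N v₀ w =
    FreeGroup.of (dmk N w u) * (FreeGroup.of (dmk N u w))⁻¹ * Ps T N v₀ u := by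
  obtain ⟨p, _⟩ := ex_walk hT u v₀
  rw [Ps_eq hT (SimpleGraph.Walk.cons h p), Ps_eq hT p, wt_cons]

theorem Ps_smul (hA : TreeAct N V T) (v₀ w : V) (γ : N) :
    Ps T N v₀ (γ • w) = Ps T N v₀ w * Ps T N v₀ (γ • v₀) := by
  obtain ⟨p, _⟩ := ex_walk hA.tree w v₀
  obtain ⟨q, _⟩ := ex_walk hA.tree (γ • v₀) v₀
  let f : T →g T := ⟨fun x => γ • x, fun {a b} h => hA.adj γ a b h⟩
  have h1 : Ps T N v₀ (γ • w) = wt N T ((p.map f).append q) := Ps_eq hA.tree _
  rw [h1, wt_append, Ps_eq hA.tree p, Ps_eq hA.tree q, wt_map hA.adj]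

theorem Ps_stab (hA : TreeAct N V T) (v₀ w : V) (γ : N) (h : γ • w = w) :
    Ps T N v₀ (γ • v₀) = 1 := by
  have h1 := Ps_smul hA v₀ w γ
  rw [h] at h1
  exact (mul_eq_left.mp h1.symm)

/-- The elements with trivial weight. -/
def kerPs (hA : TreeAct N V T) (v₀ : V) : Subgroup N where
  carrier := {γ | Ps T N v₀ (γ • v₀) = 1}
  one_mem' := by
    change Ps T N v₀ ((1 : N) • v₀) = 1
    rw [one_smul]
    exact Ps_self hA.tree v₀
  mul_mem' {a b} ha hb := by
    change Ps T N v₀ ((a * b) • v₀) = 1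
    rw [mul_smul, Ps_smul hA]
    rw [show Ps T N v₀ (b • v₀) = 1 from hb, show Ps T N v₀ (a • v₀) = 1 from ha, mul_one]
  inv_mem' {a} ha := by
    change Ps T N v₀ (a⁻¹ • v₀) = 1
    have h1 := Ps_smul hA v₀ (a⁻¹ • v₀) a
    rw [smul_inv_smul, show Ps T N v₀ (a • v₀) = 1 from ha, mul_one, Ps_self hA.tree] at h1
    exact h1.symm

/-- The subgroup generated by the stabilizers. -/
def Ell (N V : Type) [Group N] [MulAction N V] : Subgroup N := ⨆ v : V, MulAction.stabilizer N v

theorem Ell_le (hA : TreeAct N V T) (v₀ : V) : Ell N V ≤ kerPs hA v₀ :=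
  iSup_le fun w γ h => Ps_stab hA v₀ w γ h

theorem stab_le_Ell (v : V) : MulAction.stabilizer N v ≤ Ell N V :=
  le_iSup (fun v : V => MulAction.stabilizer N v) v

theorem Ps_inv (hA : TreeAct N V T) (v₀ w : V) (γ : N) (h : γ ∈ Ell N V) :
    Ps T N v₀ (γ • w) = Ps T N v₀ w := by
  have h1 : Ps T N v₀ (γ • v₀) = 1 := Ell_le hA v₀ h
  rw [Ps_smul hA, h1, mul_one]

open Classical in
theorem Ps_norm (hA : TreeAct N V T) (S : Subgroup N) (hS : ∀ v : V, MulAction.stabilizer N v ≤ S)
    {w v₀ : V} (p : T.Walk w v₀) (hp : Min S p) :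
    (Ps T N v₀ w).toWord = wl N T p := by
  rw [Ps_eq hA.tree p, wt, FreeGroup.toWord_mk, (wl_red hA S hS p hp).reduce_eq]

theorem wl_length {w v : V} (p : T.Walk w v) : (wl N T p).length = 2 * p.length := by
  induction p with
  | nil => rfl
  | cons h p ih =>
    rw [SimpleGraph.Walk.length_cons]
    change (wl N T p).length + 1 + 1 = _
    omega

/-- A minimal representative. -/
theorem ex_min (hA : TreeAct N V T) (S : Subgroup N) (w v₀ : V) :
    ∃ γ ∈ S, ∃ p : T.Walk (γ • w) v₀, Min S p := by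
  classical
  let P : ℕ → Prop := fun n => ∃ γ ∈ S, T.dist (γ • w) v₀ = n
  have hP : ∃ n, P n := ⟨_, 1, S.one_mem, rfl⟩
  obtain ⟨γ, hγ, hd⟩ := Nat.find_spec hP
  obtain ⟨p, hp⟩ := ex_walk hA.tree (γ • w) v₀
  refine ⟨γ, hγ, p, ?_⟩
  intro δ hδ
  rw [hp, hd]
  exact Nat.find_min' hP ⟨δ * γ, S.mul_mem hδ hγ, by rw [mul_smul]⟩

theorem kerPs_le (hA : TreeAct N V T) (v₀ : V) : kerPs hA v₀ ≤ Ell N V := by
  classical
  intro γ hγ
  obtain ⟨δ, hδ, p, hp⟩ := ex_min hA (Ell N V) (γ • v₀) v₀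
  have h1 := Ps_norm hA (Ell N V) stab_le_Ell p hp
  have h2 : Ps T N v₀ (δ • γ • v₀) = 1 := by
    rw [Ps_inv hA v₀ _ δ hδ]
    exact hγ
  rw [h2, FreeGroup.toWord_one] at h1
  have h3 := wl_length (N := N) p
  rw [← h1] at h3
  have h4 : p.length = 0 := by simpa using h3.symm
  have h5 : δ • γ • v₀ = v₀ := SimpleGraph.Walk.eq_of_length_eq_zero h4
  have h6 : δ * γ ∈ Ell N V := stab_le_Ell v₀ (by
    rw [MulAction.mem_stabilizer_iff, mul_smul]
    exact h5)
  exact (Subgroup.mul_mem_cancel_left _ hδ).mp h6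

instance Ell_normal : (Ell N V).Normal := by
  constructor
  intro n hn g
  have h : Ell N V ≤ (Ell N V).comap (MulAut.conj g).toMonoidHom := by
    refine iSup_le ?_
    intro v x hx
    rw [Subgroup.mem_comap]
    apply stab_le_Ell (g • v)
    rw [MulAction.mem_stabilizer_iff]
    change (g * x * g⁻¹) • g • v = g • v
    rw [mul_smul, mul_smul, inv_smul_smul]
    congr 1
  exact h hn

/-- The quotient by the subgroup generated by the stabilizers is free. -/
theorem quot_free (hA : TreeAct N V T) : IsFreeGroup (N ⧸ Ell N V) := by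
  obtain ⟨v₀⟩ := hA.tree.connected.nonempty
  let j : N →* FreeGroup (PD N V) :=
    MonoidHom.mk' (fun γ => Ps T N v₀ (γ⁻¹ • v₀)) (by
      intro a b
      rw [mul_inv_rev, mul_smul, Ps_smul hA])
  have hj : ∀ γ, j γ = 1 ↔ γ ∈ Ell N V := by
    intro γ
    constructor
    · intro h
      have h1 : γ⁻¹ ∈ kerPs hA v₀ := h
      exact (Subgroup.inv_mem_iff _).mp (kerPs_le hA v₀ h1)
    · intro h
      exact Ell_le hA v₀ ((Subgroup.inv_mem_iff _).mpr h)
  refine free_of_inj (QuotientGroup.lift (Ell N V) j fun x hx => (hj x).mpr hx) ?_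
  rw [injective_iff_map_eq_one]
  intro a ha
  obtain ⟨x, rfl⟩ := QuotientGroup.mk_surjective a
  exact (QuotientGroup.eq_one_iff _).mpr ((hj x).mp ha)

end Psi

end Pool.Agent.H694.TR
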